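import Mathlib.Data.Fintype.Powerset
import Mathlib.Data.Fintype.Pi
import Mathlib.Data.Finset.Powerset
import Mathlib.Tactic

set_option autoImplicit false

/-!
# MP_ca6fba_co: a Waiter's win in the Client-Waiter game on a hypergraph that is not 2-colourable

The hypergraph is 4-uniform and has 8 vertices.
-/

namespace Pool.Agent.Results.MP_ca6fba_co.NotTwoColourable

open Finset

variable {V : Type} [DecidableEq V]

/-- `WaiterForces E k C F`: in the Client-Waiter game on the hypergraph with edge family `E`, in the
position where Client owns exactly the vertices of `C`, the unclaimed vertices are exactly those of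
`F`, and `k` rounds are still to be played, Waiter can force that Client finally owns no whole edge.
In each round Waiter picks two distinct unclaimed vertices `x`, `y`; Client claims one of the two and
Waiter claims the other one. After the last round the unclaimed vertices (at most one, if `k` is
half the size of `F`, rounded down) go to Client. -/
def WaiterForces (E : Finset (Finset V)) : ℕ → Finset V → Finset V → Prop
  | 0, C, F => ∀ e ∈ E, ¬ e ⊆ C ∪ F
  | k + 1, C, F => ∃ x ∈ F, ∃ y ∈ F, x ≠ y ∧
      WaiterForces E k (insert x C) ((F.erase x).erase y) ∧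
      WaiterForces E k (insert y C) ((F.erase x).erase y)

/-- Waiter wins the Client-Waiter game on the hypergraph with vertex set `V` and edge family `E`:
there are `⌊|V| / 2⌋` rounds, and if `|V|` is odd, then the vertex left over goes to Client. -/
def WaiterWins [Fintype V] (E : Finset (Finset V)) : Prop :=
  WaiterForces E (Fintype.card V / 2) ∅ univ

/-- The hypergraph with vertex set `V` and edge family `E` is 2-colourable: there is a colouring of
the vertices with two colours such that no edge is monochromatic. -/
def TwoColourable (E : Finset (Finset V)) : Prop :=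
  ∃ c : V → Bool, ∀ e ∈ E, ¬ ∃ i : Bool, ∀ x ∈ e, c x = i

/-- The sixteen sets of four vertices which Client can end up with. -/
def safe : Finset (Finset (Fin 8)) :=
  {{0, 1, 3, 6}, {0, 2, 3, 6}, {0, 1, 4, 6}, {1, 4, 5, 6}, {0, 2, 5, 6}, {1, 3, 5, 6},
    {2, 3, 4, 6}, {2, 4, 5, 6},
    {0, 1, 2, 7}, {1, 2, 3, 7}, {0, 1, 4, 7}, {2, 4, 3, 7}, {0, 2, 5, 7}, {1, 3, 5, 7},
    {0, 4, 5, 7}, {3, 4, 5, 7}}

/-- The edges: all sets of four vertices except the sixteen sets in `safe`. -/
def edges : Finset (Finset (Fin 8)) := (powersetCard 4 univ).filter (fun e => e ∉ safe)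


lemma step {E : Finset (Finset V)} {k : ℕ} {C F : Finset V} (x y : V) (hx : x ∈ F) (hy : y ∈ F)
    (hxy : x ≠ y) (h1 : WaiterForces E k (insert x C) ((F.erase x).erase y))
    (h2 : WaiterForces E k (insert y C) ((F.erase x).erase y)) : WaiterForces E (k + 1) C F :=
  ⟨x, hx, y, hy, hxy, h1, h2⟩

lemma leaf {C F : Finset (Fin 8)} (h1 : (C ∪ F).card = 4) (h2 : C ∪ F ∈ safe) :
    WaiterForces edges 0 C F := by
  intro e he hsub
  obtain ⟨he1, he2⟩ := mem_filter.mp he
  have h3 : e.card = 4 := (mem_powersetCard.mp he1).2
  have h4 : e = C ∪ F := eq_of_subset_of_card_le hsub (by omega)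
  exact he2 (h4 ▸ h2)

lemma waiter_wins : WaiterWins edges := by
  show WaiterForces edges 4 ∅ univ
  refine step 6 7 (by decide) (by decide) (by decide) ?_ ?_
  · refine step 1 2 (by decide) (by decide) (by decide) ?_ ?_
    · refine step 0 5 (by decide) (by decide) (by decide) ?_ ?_
      · exact step 3 4 (by decide) (by decide) (by decide) (leaf (by decide) (by decide))
          (leaf (by decide) (by decide))
      · exact step 3 4 (by decide) (by decide) (by decide) (leaf (by decide) (by decide))
          (leaf (by decide) (by decide))
    · refine step 0 4 (by decide) (by decide) (by decide) ?_ ?_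
      · exact step 3 5 (by decide) (by decide) (by decide) (leaf (by decide) (by decide))
          (leaf (by decide) (by decide))
      · exact step 3 5 (by decide) (by decide) (by decide) (leaf (by decide) (by decide))
          (leaf (by decide) (by decide))
  · refine step 0 3 (by decide) (by decide) (by decide) ?_ ?_
    · refine step 1 5 (by decide) (by decide) (by decide) ?_ ?_
      · exact step 2 4 (by decide) (by decide) (by decide) (leaf (by decide) (by decide))
          (leaf (by decide) (by decide))
      · exact step 2 4 (by decide) (by decide) (by decide) (leaf (by decide) (by decide))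
          (leaf (by decide) (by decide))
    · refine step 1 4 (by decide) (by decide) (by decide) ?_ ?_
      · exact step 2 5 (by decide) (by decide) (by decide) (leaf (by decide) (by decide))
          (leaf (by decide) (by decide))
      · exact step 2 5 (by decide) (by decide) (by decide) (leaf (by decide) (by decide))
          (leaf (by decide) (by decide))

/-- No two of the sixteen sets are complementary. -/
lemma safe_compl : ∀ s ∈ safe, sᶜ ∉ safe := by decide +kernel

/-- Every set of at least five vertices contains an edge. -/
lemma five (s : Finset (Fin 8)) (hs : 5 ≤ s.card) : ∃ e ∈ edges, e ⊆ s := by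
  obtain ⟨t, hts, ht⟩ := exists_subset_card_eq hs
  have key : ∀ t ∈ powersetCard 5 (univ : Finset (Fin 8)), ∃ x ∈ t, t.erase x ∉ safe := by
    decide +kernel
  obtain ⟨x, hx, hx2⟩ := key t (mem_powersetCard.mpr ⟨subset_univ _, ht⟩)
  refine ⟨t.erase x, ?_, (erase_subset _ _).trans hts⟩
  rw [edges, mem_filter, mem_powersetCard]
  refine ⟨⟨subset_univ _, ?_⟩, hx2⟩
  rw [card_erase_of_mem hx, ht]

/-- Every set of vertices or its complement contains an edge. -/
lemma edge_or (s : Finset (Fin 8)) : (∃ e ∈ edges, e ⊆ s) ∨ (∃ e ∈ edges, e ⊆ sᶜ) := by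
  have h8 : s.card + sᶜ.card = 8 := by
    rw [card_add_card_compl]; simp
  by_cases h1 : 5 ≤ s.card
  · exact Or.inl (five s h1)
  by_cases h2 : 5 ≤ sᶜ.card
  · exact Or.inr (five _ h2)
  have h3 : s.card = 4 := by omega
  have h4 : sᶜ.card = 4 := by omega
  by_cases h5 : s ∈ safe
  · refine Or.inr ⟨sᶜ, ?_, Subset.refl _⟩
    rw [edges, mem_filter, mem_powersetCard]
    exact ⟨⟨subset_univ _, h4⟩, safe_compl s h5⟩
  · refine Or.inl ⟨s, ?_, Subset.refl _⟩
    rw [edges, mem_filter, mem_powersetCard]
    exact ⟨⟨subset_univ _, h3⟩, h5⟩

/-- There is a 4-uniform hypergraph with 8 vertices which is not 2-colourable and on which Waiter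
nevertheless wins the Client-Waiter game. -/
theorem result :
    ∃ E : Finset (Finset (Fin 8)), (∀ e ∈ E, e.card = 4) ∧ WaiterWins E ∧ ¬ TwoColourable E := by
  refine ⟨edges, ?_, waiter_wins, ?_⟩
  · intro e he
    exact (mem_powersetCard.mp (mem_filter.mp he).1).2
  · rintro ⟨c, hc⟩
    rcases edge_or (univ.filter fun x => c x = true) with ⟨e, he, hs⟩ | ⟨e, he, hs⟩
    · exact hc e he ⟨true, fun x hx => (mem_filter.mp (hs hx)).2⟩
    · refine hc e he ⟨false, fun x hx => ?_⟩
      have := hs hx
      simpa using this

end Pool.Agent.Results.MP_ca6fba_co.NotTwoColourable
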